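import Pool.Agent.Helper78.Ep.Goals
import Pool.Agent.Helper69.Ram.PAR

/-!
# Packets PARA and PARB (itinerary machines): arithmetic of the parameters
-/

namespace Pool.Agent.Helper70.Ep

open Pool.Agent.Helper65.LinSpace Pool.Agent.Helper78.Mpc Pool.Agent.Helper28.Ram
open Pool.Agent.Helper69.Ram (pR_spec pR_le)
open Pool.Agent.Helper78.Ep Finset

theorem wn_pos {m : Pool.Agent.Helper78.Ep.Mach} (hok : m.Ok) : 1 ≤ m.wn := Nat.mul_pos hok.hσ hok.hb

theorem wc_pos {m : Pool.Agent.Helper78.Ep.Mach} (hok : m.Ok) : 1 ≤ m.wc :=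
  hok.hσ.trans_le (Nat.le_add_right _ _)

theorem mR_le (n : ℕ) : mR n ≤ n + 8 := by
  unfold mR
  have h2 : n / ll n ≤ n := Nat.div_le_self _ _
  omega

/-- The numbers of intervals and modules. -/
theorem GE_le {n K : ℕ} {m : Pool.Agent.Helper78.Ep.Mach} (hok : m.Ok) (hpar : Par n K m) :
    m.G + m.E + 1 ≤ mR n := by
  have h1 := hpar.h1
  have h2 : m.G * 1 ≤ m.G * m.wn := Nat.mul_le_mul_left _ (wn_pos hok)
  have h3 : (m.E + 1) * 1 ≤ (m.E + 1) * m.wc := Nat.mul_le_mul_left _ (wc_pos hok)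
  omega

theorem PARA : PARA_stmt := by
  intro n K m hok hpar
  have hp := (pR_spec n).2.1
  have hm := mR_le n
  have hGE := GE_le hok hpar
  have hbig : 8 * (n + 2) ≤ (n + 2) ^ 4 := by
    have e : (n + 2) ^ 4 = (n + 2) * (n + 2) * (n + 2) * (n + 2) := by ring
    rw [e]
    apply Nat.mul_le_mul_right
    calc 8 = 2 * 2 * 2 := by norm_num
      _ ≤ (n + 2) * (n + 2) * (n + 2) :=
        Nat.mul_le_mul (Nat.mul_le_mul (by omega) (by omega)) (by omega)
  have h1 := hpar.h1
  have h2 := hpar.h2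
  have h4 := hpar.h4
  exact ⟨by unfold JE; omega, by unfold JE; omega, by unfold JE; omega, by omega, by omega,
    by omega⟩

theorem prod_cnt (m : Pool.Agent.Helper78.Ep.Mach) (p K : ℕ) :
    ∏ l ∈ range (K * (m.G + 2)), m.cnt p l =
    (2 ^ (m.lam * m.E) * ((p - 1) * (2 * m.E + 3)) * ((p - 1) * (2 * m.G + 3)) ^ (m.G + 1)) ^ K := by
  induction K with
  | zero => simp
  | succ K ih =>
    rw [add_mul, one_mul, prod_range_add, ih, pow_succ]
    congr 1
    rw [show m.G + 2 = (m.G + 1) + 1 by ring, prod_range_succ', mul_comm]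
    congr 1
    · unfold Pool.Agent.Helper78.Ep.Mach.cnt
      simp [ifz]
    · refine (prod_congr rfl (g := fun _ => (p - 1) * (2 * m.G + 3)) ?_).trans
        (by rw [prod_const, card_range, pow_succ])
      intro l hl
      have hl' := mem_range.1 hl
      unfold Pool.Agent.Helper78.Ep.Mach.cnt
      have e : (K * (m.G + 1 + 1) + (l + 1)) % (m.G + 2) = l + 1 := by
        rw [show m.G + 1 + 1 = m.G + 2 by ring, mul_comm, Nat.mul_add_mod]
        exact Nat.mod_eq_of_lt (by omega)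
      rw [e]
      simp [ifz]

theorem PARB : PARB_stmt := by
  intro x K m hok hpar
  have key : ∀ t : ℕ, t ≤ 450 * (Nat.log 2 x + 1) → 2 ^ t ≤ CE x := by
    intro t ht
    refine (Nat.pow_le_pow_right (by norm_num) ht).trans ((two_pow_log_le x 450).trans ?_)
    exact Nat.pow_le_pow_right (by omega) (by norm_num)
  generalize Nat.log 2 x = n at *
  have hGE := GE_le hok hpar
  have hm := mR_le n
  have h1 := hpar.h1
  have h2 := hpar.h2
  have h3 := hpar.h3
  have hl := ll_pos n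
  have hln := ll_le n
  have hp := pR_le n
  have hW := Nat.div_mul_le_self n (ll n)
  have hmR : mR n * ll n ≤ n + 8 * (n + 1) := by
    unfold mR
    rw [add_mul]
    have : 8 * ll n ≤ 8 * (n + 1) := Nat.mul_le_mul_left _ hln
    omega
  have hlt := lt_two_pow_ll n
  have h2E : 2 * m.E + 3 ≤ 2 ^ (ll n + 5) := by
    rw [pow_add]
    omega
  have h2G : 2 * m.G + 3 ≤ 2 ^ (ll n + 5) := by
    rw [pow_add]
    omega
  have hfac : ∀ y : ℕ, y ≤ 2 ^ (ll n + 5) → (pR n - 1) * y ≤ 2 ^ (15 * ll n) := by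
    intro y hy
    calc (pR n - 1) * y ≤ 2 ^ (4 * ll n + 5) * 2 ^ (ll n + 5) :=
          Nat.mul_le_mul ((Nat.sub_le _ _).trans hp) hy
      _ = 2 ^ (5 * ll n + 10) := by
          rw [← pow_add]
          congr 1
          ring
      _ ≤ _ := Nat.pow_le_pow_right (by norm_num) (by omega)
  refine ⟨?_, ?_, ?_, ?_⟩
  · refine (Nat.pow_le_pow_left hp _).trans ?_
    rw [← pow_mul]
    apply key
    unfold JE
    calc (4 * ll n + 5) * (5 * (mR n + 1)) ≤ (9 * ll n) * (5 * (mR n + 1)) :=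
          Nat.mul_le_mul_right _ (by omega)
      _ = 45 * (mR n * ll n) + 45 * ll n := by ring
      _ ≤ 450 * (n + 1) := by omega
  · rw [prod_cnt]
    have hA : 2 ^ (m.lam * m.E) * ((pR n - 1) * (2 * m.E + 3)) *
        ((pR n - 1) * (2 * m.G + 3)) ^ (m.G + 1) ≤
        2 ^ (m.lam * m.E + 15 * ll n + 15 * ll n * (m.G + 1)) := by
      refine (Nat.mul_le_mul (Nat.mul_le_mul_left _ (hfac _ h2E))
        (Nat.pow_le_pow_left (hfac _ h2G) (m.G + 1))).trans (le_of_eq ?_)
      rw [← pow_mul, ← pow_add, ← pow_add]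
    refine (Nat.pow_le_pow_left hA _).trans ?_
    rw [← pow_mul]
    apply key
    have e : (m.lam * m.E + 15 * ll n + 15 * ll n * (m.G + 1)) * K =
        K * (m.lam * m.E) + 15 * (K * (m.G + 2) * ll n) := by ring
    rw [e]
    have h5 : K * (m.G + 2) * ll n ≤ mR n * ll n := Nat.mul_le_mul_right _ h2
    have h6 : K * (m.lam * m.E) ≤ (K + 1) * (m.lam * m.E) := Nat.mul_le_mul_right _ (by omega)
    omega
  · apply key
    omega
  · apply key
    have h6 : 1 * (m.lam * m.E) ≤ (K + 1) * (m.lam * m.E) := Nat.mul_le_mul_right _ (by omega)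
    omega

end Pool.Agent.Helper70.Ep
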